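import Pool.Agent.N332.GK.Defs

/-!
Project GK, leaves T3 and T5: the terms of the binomial sum, and the second and third terms.
-/

set_option autoImplicit false

namespace Pool.Agent.N438.GK

open Finset Pool.Agent.N356.SP Pool.Agent.N332.GK

/-- the terms -/
noncomputable def Tk (k : ℕ) (t : ℝ) (j : ℕ) : ℝ :=
  ((2 * k).choose j : ℝ) * t ^ j *
    (ck k / (2 * (k : ℝ) - 1)) ^ ((2 * (k : ℝ) - j) / (2 * (k : ℝ) - 2))

theorem choose_step {k j : ℕ} (hj : j ≤ 2 * k) :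
    ((2 * k).choose (j + 1) : ℝ) = ((2 * k).choose j : ℝ) * (2 * (k : ℝ) - j) / ((j : ℝ) + 1) := by
  have h := Nat.choose_succ_right_eq (2 * k) j
  have h1 : (((2 * k).choose (j + 1) * (j + 1) : ℕ) : ℝ) =
      (((2 * k).choose j * (2 * k - j) : ℕ) : ℝ) := by rw [h]
  rw [Nat.cast_mul, Nat.cast_mul, Nat.cast_sub hj] at h1
  push_cast at h1
  rw [eq_div_iff (by positivity)]
  linarith

theorem choose_two' {k : ℕ} (hk : 6 ≤ k) : ((2 * k).choose 2 : ℝ) = k * (2 * (k : ℝ) - 1) := by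
  have h := choose_step (k := k) (j := 1) (by omega)
  rw [Nat.choose_one_right] at h
  push_cast at h ⊢
  rw [h]; ring

theorem choose_three' {k : ℕ} (hk : 6 ≤ k) :
    ((2 * k).choose 3 : ℝ) = k * (2 * (k : ℝ) - 1) * (2 * (k : ℝ) - 2) / 3 := by
  have h := choose_step (k := k) (j := 2) (by omega)
  rw [choose_two' hk] at h
  push_cast at h ⊢
  rw [h]; ring

theorem choose_four' {k : ℕ} (hk : 6 ≤ k) :
    ((2 * k).choose 4 : ℝ) =
      k * (2 * (k : ℝ) - 1) * ((k : ℝ) - 1) * (2 * (k : ℝ) - 3) / 6 := by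
  have h := choose_step (k := k) (j := 3) (by omega)
  rw [choose_three' hk] at h
  push_cast at h ⊢
  rw [h]; ring

theorem ck_pos' {k : ℕ} (hk : 6 ≤ k) : 0 < ck k := by
  have h6 : (6 : ℝ) ≤ k := by exact_mod_cast hk
  have h1 : 0 < ((2 * k).choose k : ℝ) := by exact_mod_cast Nat.choose_pos (by omega)
  unfold ck
  apply Real.rpow_pos_of_pos
  apply div_pos (pow_pos (by linarith) _) h1

/-- `a0 ^ k = 1 / lam k` -/
theorem a0_pow {k : ℕ} (hk : 6 ≤ k) : (ck k / (2 * (k : ℝ) - 1)) ^ k = (lam k)⁻¹ := by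
  have h6 : (6 : ℝ) ≤ k := by exact_mod_cast hk
  have h1 : 0 < ((2 * k).choose k : ℝ) := by exact_mod_cast Nat.choose_pos (by omega)
  have h2 : 0 ≤ (2 * (2 * (k : ℝ) - 1)) ^ k / ((2 * k).choose k : ℝ) :=
    div_nonneg (pow_nonneg (by linarith) _) h1.le
  have h3 : ck k ^ k = (2 * (2 * (k : ℝ) - 1)) ^ k / ((2 * k).choose k : ℝ) := by
    unfold ck
    rw [one_div]
    exact Real.rpow_inv_natCast_pow h2 (by omega)
  have h4 : (2 * (k : ℝ) - 1) ^ k ≠ 0 := pow_ne_zero _ (by linarith)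
  rw [div_pow, h3, lam, mul_pow]
  field_simp

theorem exists_Lam (HL : ∀ {k : ℕ}, 6 ≤ k → lam k ≤ (2 - 7 / (4 * (k : ℝ))) ^ (k - 1))
    {k : ℕ} (hk : 6 ≤ k) :
    (ck k / (2 * (k : ℝ) - 1)) ^ (-((k : ℝ) / ((k : ℝ) - 1))) ≤ 2 - 7 / (4 * (k : ℝ)) := by
  have h6 : (6 : ℝ) ≤ k := by exact_mod_cast hk
  have ha : 0 < ck k / (2 * (k : ℝ) - 1) := div_pos (ck_pos' hk) (by linarith)
  have h1 : ((ck k / (2 * (k : ℝ) - 1)) ^ (-((k : ℝ) / ((k : ℝ) - 1)))) ^ (k - 1) = lam k := by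
    rw [← Real.rpow_natCast, ← Real.rpow_mul ha.le, Nat.cast_sub (by omega)]
    have h2 : -((k : ℝ) / ((k : ℝ) - 1)) * ((k : ℝ) - (1 : ℕ)) = -(k : ℝ) := by
      push_cast
      have : (k : ℝ) - 1 ≠ 0 := by linarith
      field_simp
    rw [h2, Real.rpow_neg ha.le, Real.rpow_natCast, a0_pow hk, inv_inv]
  have h2 : (0 : ℝ) ≤ 2 - 7 / (4 * (k : ℝ)) := by
    have : 7 / (4 * (k : ℝ)) ≤ 2 := by
      rw [div_le_iff₀ (by linarith)]; linarith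
    linarith
  have h3 := HL hk
  rw [← h1] at h3
  exact le_of_pow_le_pow_left₀ (by omega) h2 h3

/-- T3 -/
theorem Tk_facts (HL : ∀ {k : ℕ}, 6 ≤ k → lam k ≤ (2 - 7 / (4 * (k : ℝ))) ^ (k - 1))
    {k : ℕ} (hk : 6 ≤ k) {t : ℝ} (ht : 0 ≤ t) :
    (∀ j, 0 ≤ Tk k t j) ∧
    Tk k t 4 ≤ (√(k * ck k) * t) ^ 4 * ((1 - 1 / (k : ℝ)) * (2 - 3 * (1 / (k : ℝ))) *
      (2 - 7 / 4 * (1 / (k : ℝ))) / (6 * (2 - 1 / (k : ℝ)))) ∧
    ∀ j : ℕ, 2 ≤ j → j < 2 * k →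
      Tk k t (j + 1) ≤ 2 / ((j : ℝ) + 1) * (1 - j * (1 / (k : ℝ)) / 2) * (√(k * ck k) * t) *
        Tk k t j := by
  have h6 : (6 : ℝ) ≤ k := by exact_mod_cast hk
  have hck := ck_pos' hk
  have hk0 : (0 : ℝ) < k := by linarith
  have h2k : (0 : ℝ) < 2 * (k : ℝ) - 1 := by linarith
  have ha : 0 < ck k / (2 * (k : ℝ) - 1) := div_pos hck h2k
  have hLam := exists_Lam HL hk
  have hnn : ∀ j, 0 ≤ Tk k t j := by
    intro j
    unfold Tk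
    have := (Real.rpow_pos_of_pos ha ((2 * (k : ℝ) - j) / (2 * (k : ℝ) - 2))).le
    positivity
  refine ⟨hnn, ?_, ?_⟩
  · -- the fourth term
    unfold Tk
    have h1 : (2 * (k : ℝ) - ((4 : ℕ) : ℝ)) / (2 * (k : ℝ) - 2) =
        (2 : ℕ) + (-((k : ℝ) / ((k : ℝ) - 1))) := by
      have h3 : (k : ℝ) - 1 ≠ 0 := by linarith
      have h4 : 2 * (k : ℝ) - 2 ≠ 0 := by linarith
      push_cast
      field_simp
      ring
    rw [h1, Real.rpow_add ha, Real.rpow_natCast, choose_four' hk]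
    have h2 : (√(k * ck k) * t) ^ 4 = ((k : ℝ) * ck k) ^ 2 * t ^ 4 := by
      have h3 : √(k * ck k) ^ 2 = k * ck k := Real.sq_sqrt (by positivity)
      calc (√(k * ck k) * t) ^ 4 = (√(k * ck k) ^ 2) ^ 2 * t ^ 4 := by ring
        _ = _ := by rw [h3]
    rw [h2]
    have h5 : (0 : ℝ) ≤ k * (2 * (k : ℝ) - 1) * ((k : ℝ) - 1) * (2 * (k : ℝ) - 3) / 6 * t ^ 4 *
        (ck k / (2 * (k : ℝ) - 1)) ^ 2 := by
      have : (0 : ℝ) ≤ (k : ℝ) - 1 := by linarith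
      have : (0 : ℝ) ≤ 2 * (k : ℝ) - 3 := by linarith
      positivity
    have h7 := mul_le_mul_of_nonneg_left hLam h5
    rw [mul_assoc] at h7
    refine h7.trans (le_of_eq ?_)
    have h8 : (2 : ℝ) - 1 / (k : ℝ) ≠ 0 := by
      have : 1 / (k : ℝ) ≤ 1 := by rw [div_le_one hk0]; linarith
      linarith
    have h9 : 2 * (k : ℝ) - 1 ≠ 0 := h2k.ne'
    have h10 : (k : ℝ) ≠ 0 := hk0.ne'
    have h11 : (2 : ℝ) - 1 / (k : ℝ) = (2 * (k : ℝ) - 1) / k := by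
      field_simp
    rw [h11]
    field_simp
  · -- the ratio
    intro j hj hjk
    have h1 : Tk k t (j + 1) = Tk k t j * ((2 * (k : ℝ) - j) / ((j : ℝ) + 1)) *
        (t * (ck k / (2 * (k : ℝ) - 1)) ^ (-(1 / (2 * (k : ℝ) - 2)))) := by
      unfold Tk
      rw [choose_step (by omega)]
      have h3 : (2 * (k : ℝ) - ((j + 1 : ℕ) : ℝ)) / (2 * (k : ℝ) - 2) =
          (2 * (k : ℝ) - j) / (2 * (k : ℝ) - 2) + (-(1 / (2 * (k : ℝ) - 2))) := by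
        have h4 : 2 * (k : ℝ) - 2 ≠ 0 := by linarith
        push_cast
        field_simp
        ring
      rw [h3, Real.rpow_add ha]
      ring
    have h2 : (ck k / (2 * (k : ℝ) - 1)) ^ (-(1 / (2 * (k : ℝ) - 2))) * k ≤ √(k * ck k) := by
      have h0 := (Real.rpow_pos_of_pos ha (-(1 / (2 * (k : ℝ) - 2)))).le
      apply Real.le_sqrt_of_sq_le
      have h3 : ((ck k / (2 * (k : ℝ) - 1)) ^ (-(1 / (2 * (k : ℝ) - 2)))) ^ 2 =
          ck k / (2 * (k : ℝ) - 1) * (ck k / (2 * (k : ℝ) - 1)) ^ (-((k : ℝ) / ((k : ℝ) - 1))) := by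
        rw [← Real.rpow_natCast, ← Real.rpow_mul ha.le]
        have h4 : -(1 / (2 * (k : ℝ) - 2)) * ((2 : ℕ) : ℝ) = 1 + (-((k : ℝ) / ((k : ℝ) - 1))) := by
          have h3 : (k : ℝ) - 1 ≠ 0 := by linarith
          have h4 : 2 * (k : ℝ) - 2 ≠ 0 := by linarith
          push_cast
          field_simp
          ring
        rw [h4, Real.rpow_add ha, Real.rpow_one]
      rw [mul_pow, h3]
      have h5 : (ck k / (2 * (k : ℝ) - 1)) ^ (-((k : ℝ) / ((k : ℝ) - 1))) ≤ 2 - 1 / (k : ℝ) := by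
        refine hLam.trans ?_
        have : 1 / (k : ℝ) ≤ 7 / (4 * (k : ℝ)) := by
          rw [div_le_div_iff₀ hk0 (by linarith)]; linarith
        linarith
      have h7 : (2 : ℝ) - 1 / (k : ℝ) = (2 * (k : ℝ) - 1) / k := by
        field_simp
      calc ck k / (2 * (k : ℝ) - 1) * (ck k / (2 * (k : ℝ) - 1)) ^ (-((k : ℝ) / ((k : ℝ) - 1))) *
          (k : ℝ) ^ 2 ≤ ck k / (2 * (k : ℝ) - 1) * (2 - 1 / (k : ℝ)) * (k : ℝ) ^ 2 := by
            gcongr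
        _ = k * ck k := by
          rw [h7]
          field_simp
    have h3 : t * (ck k / (2 * (k : ℝ) - 1)) ^ (-(1 / (2 * (k : ℝ) - 2))) ≤
        √(k * ck k) * t / k := by
      rw [le_div_iff₀ hk0]
      nlinarith [mul_le_mul_of_nonneg_left h2 ht]
    have hjk' : (j : ℝ) < 2 * k := by exact_mod_cast hjk
    have h4 : 0 ≤ Tk k t j * ((2 * (k : ℝ) - j) / ((j : ℝ) + 1)) := by
      have := hnn j
      have : 0 ≤ 2 * (k : ℝ) - j := by linarith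
      positivity
    rw [h1]
    refine (mul_le_mul_of_nonneg_left h3 h4).trans (le_of_eq ?_)
    field_simp

/-- T5 -/
theorem head_sum {k : ℕ} (hk : 6 ≤ k) {t A2 A3 : ℝ} (ht : 0 ≤ t)
    (h2' : (2 * (k : ℝ) - 1) / ck k * A2 ≤ 1)
    (h3 : A3 ^ 2 ≤ Kb (1 / (k : ℝ)) * (ck k / (2 * (k : ℝ) - 1)) ^ 3 *
      (1 - (2 * (k : ℝ) - 1) / ck k * A2)) :
    ((2 * k).choose 2 : ℝ) * t ^ 2 * A2 + ((2 * k).choose 3 : ℝ) * t ^ 3 * A3 ≤
      (√(k * ck k) * t) ^ 2 + (√(k * ck k) * t) ^ 4 *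
        (Kb (1 / (k : ℝ)) * (1 - 1 / (k : ℝ)) ^ 2 / (9 * (2 - 1 / (k : ℝ)))) := by
  have h6 : (6 : ℝ) ≤ k := by exact_mod_cast hk
  have hck := ck_pos' hk
  have hk0 : (0 : ℝ) < k := by linarith
  have h2k : (0 : ℝ) < 2 * (k : ℝ) - 1 := by linarith
  have hKb : 0 ≤ Kb (1 / (k : ℝ)) := by unfold Kb; positivity
  obtain ⟨d, hd⟩ : ∃ d, d = 1 - (2 * (k : ℝ) - 1) / ck k * A2 := ⟨_, rfl⟩
  have hd0 : 0 ≤ d := by rw [hd]; linarith
  rw [← hd] at h3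
  have hA2 : A2 = ck k / (2 * (k : ℝ) - 1) * (1 - d) := by
    rw [hd]; field_simp; ring
  have hs2 : (√(k * ck k) * t) ^ 2 = k * ck k * t ^ 2 := by
    rw [mul_pow, Real.sq_sqrt (by positivity)]
  have hs4 : (√(k * ck k) * t) ^ 4 = (k * ck k * t ^ 2) ^ 2 := by
    rw [← hs2]; ring
  rw [hs2, hs4]
  have h7 : (2 : ℝ) - 1 / (k : ℝ) = (2 * (k : ℝ) - 1) / k := by
    field_simp
  obtain ⟨M, hM⟩ : ∃ M, M = (k * ck k * t ^ 2) ^ 2 *
      (Kb (1 / (k : ℝ)) * (1 - 1 / (k : ℝ)) ^ 2 / (9 * (2 - 1 / (k : ℝ)))) := ⟨_, rfl⟩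
  rw [← hM]
  have hM0 : 0 ≤ M := by rw [hM, h7]; positivity
  have e2 : ((2 * k).choose 2 : ℝ) * t ^ 2 * A2 = k * ck k * t ^ 2 * (1 - d) := by
    have h9 : 2 * (k : ℝ) - 1 ≠ 0 := h2k.ne'
    rw [choose_two' hk, hA2]
    have h10 : (2 * (k : ℝ) - 1) * (ck k / (2 * (k : ℝ) - 1)) = ck k := mul_div_cancel₀ _ h9
    linear_combination (k * t ^ 2 * (1 - d)) * h10
  rw [e2]
  have e3 : (((2 * k).choose 3 : ℝ) * t ^ 3) ^ 2 *
      (Kb (1 / (k : ℝ)) * (ck k / (2 * (k : ℝ) - 1)) ^ 3) = 4 * (k * ck k * t ^ 2) * M := by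
    rw [choose_three' hk, hM, h7]
    field_simp
    ring
  have h8 : (((2 * k).choose 3 : ℝ) * t ^ 3 * A3) ^ 2 ≤ (k * ck k * t ^ 2 * d + M) ^ 2 := by
    calc (((2 * k).choose 3 : ℝ) * t ^ 3 * A3) ^ 2
        = (((2 * k).choose 3 : ℝ) * t ^ 3) ^ 2 * A3 ^ 2 := by ring
      _ ≤ (((2 * k).choose 3 : ℝ) * t ^ 3) ^ 2 *
          (Kb (1 / (k : ℝ)) * (ck k / (2 * (k : ℝ) - 1)) ^ 3 * d) := by gcongr
      _ = 4 * (k * ck k * t ^ 2) * M * d := by rw [← e3]; ring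
      _ ≤ _ := by nlinarith [sq_nonneg (k * ck k * t ^ 2 * d - M)]
  have h9 : ((2 * k).choose 3 : ℝ) * t ^ 3 * A3 ≤ k * ck k * t ^ 2 * d + M :=
    le_of_abs_le (abs_le_of_sq_le_sq h8 (by positivity))
  linarith

end Pool.Agent.N438.GK
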